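import Pool.Agent.N783.PQ.Lat

/-!
# The ring of integers is `ℤ[θ]` when the discriminant is squarefree (part INT of project PQ)

Port of `Pool/Agent/N769/PJ/Int.lean` (helper769) from `k[X]` to `ℤ`.
-/

set_option autoImplicit false
set_option linter.all false

open Polynomial IsDedekindDomain Matrix NumberField
open scoped Classical

namespace Pool.Agent.N833.PQ

open Pool.Agent.N783.PQ

/-- A rational number whose square times a squarefree integer is integral is an integer. -/
theorem sqf_int {D : ℤ} (hD : Squarefree D) {t : ℚ}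
    (h : IsIntegral ℤ (t ^ 2 * (D : ℚ))) : ∃ c : ℤ, (c : ℚ) = t := by
  have hD0 : D ≠ 0 := hD.ne_zero
  have hD0' : (D : ℚ) ≠ 0 := by exact_mod_cast hD0
  have h1 : IsIntegral ℤ (t * (D : ℚ)) := by
    refine IsIntegral.of_pow (n := 2) (by norm_num) ?_
    have : (t * (D : ℚ)) ^ 2 = t ^ 2 * (D : ℚ) * (D : ℚ) := by
      ring
    rw [this]
    exact h.mul (isIntegral_algebraMap (R := ℤ) (A := ℚ) (x := D))
  obtain ⟨m, hm⟩ := IsIntegrallyClosed.isIntegral_iff.1 h1
  obtain ⟨n, hn⟩ := IsIntegrallyClosed.isIntegral_iff.1 h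
  have hm' : (m : ℚ) = t * D := hm
  have hn' : (n : ℚ) = t ^ 2 * D := hn
  have h2 : m ^ 2 = n * D := by
    have : (m : ℚ) ^ 2 = n * D := by
      rw [hm', hn']
      ring
    exact_mod_cast this
  have h3 : D ∣ m := (hD.dvd_pow_iff_dvd (n := 2) (by norm_num)).1 ⟨n, by rw [h2]; ring⟩
  obtain ⟨c, rfl⟩ := h3
  refine ⟨c, ?_⟩
  push_cast at hm'
  rw [mul_comm] at hm'
  exact mul_right_cancel₀ hD0' hm'

section gen

variable {g : ℕ} {L : Type} [Field L] [NumberField L] {f : ℤ[X]} {θ : L}

/-- The power basis. -/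
noncomputable def pb (h : IsGen g f θ) : PowerBasis ℚ L where
  gen := θ
  dim := 2 * g + 1
  basis := h.basis
  basis_eq_pow := h.basis_apply

theorem minp (h : IsGen g f θ) : minpoly ℚ θ = f.map (algebraMap ℤ ℚ) := by
  have h1 : aeval θ (f.map (algebraMap ℤ ℚ)) = 0 := by
    rw [aeval_map_algebraMap, h.root]
  have h2 := minpoly.dvd ℚ θ h1
  have h3 : (minpoly ℚ θ).natDegree = 2 * g + 1 := (pb h).natDegree_minpoly
  have hi : IsIntegral ℚ θ := (pb h).isIntegral_gen
  have h4 : (f.map (algebraMap ℤ ℚ)).natDegree = 2 * g + 1 := by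
    rw [h.mon.natDegree_map, h.deg]
  exact (Polynomial.eq_of_monic_of_dvd_of_natDegree_le (minpoly.monic hi) (h.mon.map _) h2
    (by rw [h3, h4])).symm

theorem dsc_map (h : IsGen g f θ) : algebraMap ℤ ℚ (dsc g f) =
    (f.map (algebraMap ℤ ℚ)).resultant (derivative (f.map (algebraMap ℤ ℚ)))
      (2 * g + 1) (2 * g) := by
  rw [derivative_map, resultant_map_map, dsc]

theorem deg_der (h : IsGen g f θ) :
    (derivative (f.map (algebraMap ℤ ℚ))).natDegree ≤ 2 * g := by
  refine (natDegree_derivative_le _).trans ?_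
  rw [h.mon.natDegree_map, h.deg]
  omega

theorem sep (h : IsGen g f θ) (hd : dsc g f ≠ 0) : (f.map (algebraMap ℤ ℚ)).Separable := by
  set F := f.map (algebraMap ℤ ℚ) with hF
  have hdeg : F.natDegree = 2 * g + 1 := by
    rw [hF, h.mon.natDegree_map, h.deg]
  have h1 : F.resultant (derivative F) (2 * g + 1) (2 * g) ≠ 0 := by
    rw [hF, ← dsc_map h]
    rwa [Ne, IsFractionRing.to_map_eq_zero_iff (R := ℤ)]
  have h2 : F.resultant (derivative F) ≠ 0 := by
    intro h0
    apply h1
    obtain ⟨j, hj⟩ := Nat.exists_eq_add_of_le (deg_der h)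
    rw [← hF] at hj
    have h5 := resultant_add_right_deg F (derivative F) (2 * g + 1) (derivative F).natDegree j
      le_rfl
    rw [← hj, ← hdeg, h0, mul_zero] at h5
    rw [← hdeg, h5]
  have h3 := mt resultant_eq_zero_iff.2 h2
  rw [not_and, not_not] at h3
  have hF0 : F ≠ 0 := (h.mon.map _).ne_zero
  exact h3 (Or.inl hF0)

theorem nrm (h : IsGen g f θ) (hd : dsc g f ≠ 0) (p : ℚ[X]) (n : ℕ) (hp : p.natDegree ≤ n) :
    Algebra.norm ℚ (aeval θ p) = (f.map (algebraMap ℤ ℚ)).resultant p (2 * g + 1) n := by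
  set F := f.map (algebraMap ℤ ℚ) with hF
  have hdeg : F.natDegree = 2 * g + 1 := by
    rw [hF, h.mon.natDegree_map, h.deg]
  set E := AlgebraicClosure L
  apply (algebraMap ℚ E).injective
  rw [Algebra.norm_eq_prod_embeddings]
  have hsp : (F.map (algebraMap ℚ E)).Splits := IsAlgClosed.splits _
  have hm : (F.map (algebraMap ℚ E)).Monic := (h.mon.map _).map _
  have hdeg' : (F.map (algebraMap ℚ E)).natDegree = 2 * g + 1 := by
    rw [Monic.natDegree_map (h.mon.map _), hdeg]
  rw [← resultant_map_map, ← hdeg', resultant_eq_prod_eval _ _ _ (natDegree_map_le.trans hp) hsp,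
    hm.leadingCoeff, one_pow, one_mul]
  have hmp : minpoly ℚ (pb h).gen = F := minp h
  have hnd : ((minpoly ℚ (pb h).gen).aroots E).Nodup := by
    rw [hmp]
    exact nodup_roots (sep h hd).map
  have key : ∏ σ : L →ₐ[ℚ] E, σ (aeval θ p) =
      ∏ x : {y : E // y ∈ (minpoly ℚ (pb h).gen).aroots E}, (p.map (algebraMap ℚ E)).eval (x : E) :=
    Fintype.prod_equiv (pb h).liftEquiv' _ _ fun σ => by
      rw [PowerBasis.liftEquiv'_apply_coe, ← aeval_algHom_apply, eval_map_algebraMap]
      rfl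
  rw [key, Finset.prod_mem_multiset _ _ (fun x => (p.map (algebraMap ℚ E)).eval x)
    (fun _ => rfl), Finset.prod_eq_multiset_prod, Multiset.toFinset_val,
    Multiset.dedup_eq_self.mpr hnd, hmp]

theorem dis (h : IsGen g f θ) (hd : dsc g f ≠ 0) : ∃ m : ℕ,
    Algebra.discr ℚ (fun i : Fin (2 * g + 1) => θ ^ (i : ℕ)) =
      (-1) ^ m * algebraMap ℤ ℚ (dsc g f) := by
  have h1 := Algebra.discr_powerBasis_eq_norm ℚ (pb h)
  have h2 : (⇑(pb h).basis : Fin (2 * g + 1) → L) = fun i : Fin (2 * g + 1) => θ ^ (i : ℕ) :=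
    funext fun i => h.basis_apply i
  have h3 : minpoly ℚ (pb h).gen = f.map (algebraMap ℤ ℚ) := minp h
  rw [h3] at h1
  have h4 := nrm h hd _ _ (deg_der h)
  refine ⟨Module.finrank ℚ L * (Module.finrank ℚ L - 1) / 2, ?_⟩
  rw [dsc_map h, ← h4, ← h2]
  exact h1

theorem theta_int (h : IsGen g f θ) : IsIntegral ℤ θ := ⟨f, h.mon, h.root⟩

end gen

/-- **INT**: the ring of integers is `ℤ[θ]`. -/
theorem int : S_INT := by
  intro g L _ _ f θ h hsq x
  have hθ := theta_int h
  constructor
  · intro hx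
    obtain ⟨c, hc⟩ := h.gen x
    have key : ∀ i₀, ∃ d : ℤ, (d : ℚ) = c i₀ := by
      intro i₀
      obtain ⟨m, hm⟩ := dis h hsq.ne_zero
      set P : Matrix (Fin (2 * g + 1)) (Fin (2 * g + 1)) ℚ := (1 : Matrix _ _ ℚ).updateCol i₀ c
        with hP
      have hdet : P.det = c i₀ := by
        rw [hP, ← cramer_apply, cramer_one]
        rfl
      have h1 : IsIntegral ℤ (Algebra.discr ℚ
          ((fun i : Fin (2 * g + 1) => θ ^ (i : ℕ)) ᵥ* P.map (algebraMap ℚ L))) := by
        apply Algebra.discr_isIntegral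
        intro j
        have e : ((fun i : Fin (2 * g + 1) => θ ^ (i : ℕ)) ᵥ* P.map (algebraMap ℚ L)) j =
            if j = i₀ then x else θ ^ (j : ℕ) := by
          rw [Matrix.vecMul, dotProduct]
          simp only [Matrix.map_apply]
          split_ifs with hj
          · subst hj
            rw [hc]
            refine Finset.sum_congr rfl fun i _ => ?_
            rw [hP, updateCol_self, mul_comm]
            rfl
          · rw [Finset.sum_eq_single j]
            · rw [hP, updateCol_ne hj, one_apply_eq, map_one, mul_one]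
            · intro i _ hij
              rw [hP, updateCol_ne hj, one_apply_ne hij, map_zero, mul_zero]
            · intro h0
              exact absurd (Finset.mem_univ _) h0
        rw [e]
        split_ifs
        · exact hx
        · exact hθ.pow _
      rw [Algebra.discr_of_matrix_vecMul, hdet, hm] at h1
      apply sqf_int hsq
      have h2 : IsIntegral ℤ ((-1 : ℚ) ^ m) := (isIntegral_one.neg).pow m
      have h3 := h2.mul h1
      have e2 : (-1 : ℚ) ^ m * (-1 : ℚ) ^ m = 1 := by
        rw [← mul_pow, neg_one_mul, neg_neg, one_pow]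
      have e : (-1 : ℚ) ^ m * (c i₀ ^ 2 * ((-1) ^ m * algebraMap ℤ ℚ (dsc g f))) =
          c i₀ ^ 2 * ((dsc g f : ℤ) : ℚ) := by
        have e3 : algebraMap ℤ ℚ (dsc g f) = ((dsc g f : ℤ) : ℚ) := rfl
        rw [e3]
        linear_combination (c i₀ ^ 2 * ((dsc g f : ℤ) : ℚ)) * e2
      rwa [e] at h3
    choose v hv using key
    refine ⟨v, ?_⟩
    rw [Crd, hc]
    refine Finset.sum_congr rfl fun i _ => ?_
    rw [← hv i]
    push_cast
    rfl
  · rintro ⟨v, hv⟩
    rw [hv]
    refine IsIntegral.sum _ fun i _ => ?_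
    have : IsIntegral ℤ ((v i : ℤ) : L) := isIntegral_algebraMap (R := ℤ) (A := L) (x := v i)
    exact this.mul (hθ.pow _)

end Pool.Agent.N833.PQ
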